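import Pool.Agent.Helper10.HS.GoalsL
import Pool.Agent.Helper86.SP.ACB
import Pool.Agent.Helper4.SP.PARB
import Pool.Agent.Helper92.Orb.Group

/-! # HS, packet PUSHV: the volume density of an invariant metric of the étale relation -/

open Complex Metric Set Filter Topology MeasureTheory
open scoped ContDiff ComplexConjugate ComplexOrder Manifold Matrix

namespace Pool.Agent.Helper69.HS

open Pool.Agent.Helper95.Lin Pool.Agent.Helper16.Abund Pool.Agent.Helper92.Orb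
open Pool.Agent.Helper10.SP Pool.Agent.Helper95.RK Pool.Agent.Helper15.RK
open Pool.Agent.Helper57.HS Pool.Agent.Helper10.RK
open Pool.Agent.Helper10.HS

universe u v

section

variable {n : ℕ} {G : Type u} {M : Type v} [Group G] [MulAction G M]
  [TopologicalSpace M] [T2Space M] [ChartedSpace (Fin n → ℂ) M]
  [IsManifold 𝓘(ℂ, Fin n → ℂ) ω M] {h : M → Matrix (Fin n) (Fin n) ℂ}

/-- the local value -/
noncomputable def vloc (E : Cn n → M) (Q : Cn n → Matrix (Fin n) (Fin n) ℂ) (γ : G) (x : Cn n)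
    (p : M) : ℝ :=
  (Q x).det.re / ‖jac n E x‖ ^ 2 * ‖jac n (fun y : M => γ • y) p‖ ^ 2

/-- transport along an arrow of the relation between two parametrizations. -/
theorem jac_tau (hPAR : S_PARH.{u, v}) (hD : DataH n G M h) {V V' : Set (Cn n)}
    {ψ ψ' : Cn n → M} (hψ : Par n ψ V) (hψ' : Par n ψ' V') {γ : G} {τ : Cn n → Cn n}
    {U : Set (Cn n)} (hU : IsOpen U) (hUV : U ⊆ V) (hτ : DifferentiableOn ℂ τ U)
    (hτV : MapsTo τ U V') (hdet : ∀ y ∈ U, (fderiv ℂ τ y).det ≠ 0)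
    (he : ∀ y ∈ U, γ • ψ y = ψ' (τ y)) {y : Cn n} (hy : y ∈ U) :
    jac n (fun z : M => γ • z) (ψ y) * jac n ψ y = jac n ψ' (τ y) * (fderiv ℂ τ y).det := by
  obtain ⟨h1, h2, -⟩ := hPAR hD
  rw [← (h2 γ V ψ hψ).2 y (hUV hy), ← (h1 V' U ψ' τ hψ' hU hτ hτV hdet).2 y hy]
  apply jac_congr
  filter_upwards [hU.mem_nhds hy] with z hz
  exact he z hz

theorem vloc_wd (hPAR : S_PARH.{u, v}) (hDET : S_DETI.{u}) (hD : DataH n G M h)
    {T : Set (Cn n)} {E : Cn n → M} (hE : Par n E T)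
    {Q : Cn n → Matrix (Fin n) (Fin n) ℂ} (hQ : KEt T (RelT (G := G) T E) Q)
    {γ γ' : G} {x x' : Cn n} (hx : x ∈ T) (hx' : x' ∈ T) {p : M} (h1 : γ • p = E x)
    (h2 : γ' • p = E x') : vloc E Q γ x p = vloc E Q γ' x' p := by
  have hδ : (γ' * γ⁻¹) • E x = E x' := by
    rw [← h1, ← h2, mul_smul, inv_smul_smul]
  obtain ⟨τ, U, W, hU, hW, hxU, hxW, hUT, hWT, hτ, -, hm, hτx, hdet, hiff⟩ :=
    (hPAR hD).2.2.1 T T E E hE hE (γ' * γ⁻¹) x hx x' hx' hδ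
  have he : ∀ y ∈ U, (γ' * γ⁻¹) • E y = E (τ y) := fun y hy => (hiff y hy (τ y) (hm hy)).2 rfl
  have hj := jac_tau hPAR hD hE hE hU hUT hτ (fun y hy => hWT (hm hy)) hdet he hxU
  rw [hτx] at hj
  have hA : Arr (RelT (G := G) T E) U τ :=
    ⟨hU, hτ, γ' * γ⁻¹, fun y hy => ⟨hUT hy, hWT (hm hy), he y hy⟩⟩
  have hd := ((hDET T _ Q hQ).2.2.2.2.1 U τ hA x hxU).1
  rw [hτx] at hd
  have hc : jac n (fun y : M => γ' • y) p =
      jac n (fun y : M => (γ' * γ⁻¹) • y) (E x) * jac n (fun y : M => γ • y) p := by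
    have := jac_smul_mul (n := n) hD.act.holo (γ' * γ⁻¹) γ p
    rw [inv_mul_cancel_right, h1] at this
    exact this
  have hjE : jac n E x ≠ 0 := hE.2 x hx
  have hjE' : jac n E x' ≠ 0 := hE.2 x' hx'
  have hn : ‖jac n E x‖ ^ 2 ≠ 0 := pow_ne_zero _ (norm_ne_zero_iff.2 hjE)
  have hn' : ‖jac n E x'‖ ^ 2 ≠ 0 := pow_ne_zero _ (norm_ne_zero_iff.2 hjE')
  have hj2 : ‖jac n (fun z : M => (γ' * γ⁻¹) • z) (E x)‖ ^ 2 * ‖jac n E x‖ ^ 2 =
      ‖jac n E x'‖ ^ 2 * ‖(fderiv ℂ τ x).det‖ ^ 2 := by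
    rw [← mul_pow, ← norm_mul, hj, norm_mul, mul_pow]
  unfold vloc
  rw [hc, norm_mul, mul_pow, hd]
  field_simp
  linear_combination (-(Q x').det.re * ‖jac n (fun y : M => γ • y) p‖ ^ 2) * hj2

end

/-- PUSHV. -/
theorem pushv (hPAR : S_PARH.{u, v}) (hDET : S_DETI.{u}) (hWCH : S_WCH) : S_PUSHV.{u, v} := by
  intro n G M _ _ _ _ _ _ _ h hD T E hE hcov Q hQ
  obtain ⟨C, hCT, -, hC⟩ := hcov
  choose g s hsC hgs using hC
  have hsT : ∀ p, s p ∈ T := fun p => hCT (hsC p)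
  have hholo := hD.act.holo
  obtain ⟨hd1, hd2, -⟩ := hDET T _ Q hQ
  have hTo : IsOpen T := hE.1.1
  set w : M → ℝ := fun p => vloc E Q (g p) (s p) p with hw
  have hwd : ∀ (γ : G) (p : M) (x : Cn n), x ∈ T → γ • p = E x → w p = vloc E Q γ x p :=
    fun γ p x hx he => vloc_wd hPAR hDET hD hE hQ (hsT p) hx (hgs p) he
  have hpos : ∀ p, 0 < w p := by
    intro p
    refine mul_pos (div_pos (hd1 _ (hsT p)).2.1 ?_) ?_
    · exact pow_pos (norm_pos_iff.2 (hE.2 _ (hsT p))) 2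
    · exact pow_pos (norm_pos_iff.2 (jac_smul_ne_zero hholo _ _)) 2
  have hinv : ∀ (γ : G) (x : M), w (γ • x) * ‖jac n (fun y : M => γ • y) x‖ ^ 2 = w x := by
    intro γ x
    have e1 : (g (γ • x) * γ) • x = E (s (γ • x)) := by
      rw [mul_smul]
      exact hgs _
    rw [hwd _ x _ (hsT _) e1]
    show vloc E Q _ _ _ * _ = _
    unfold vloc
    rw [jac_smul_mul hholo, norm_mul, mul_pow]
    ring
  have hE2 : ∀ x ∈ T, w (E x) * ‖jac n E x‖ ^ 2 = (Q x).det.re := by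
    intro x hx
    rw [hwd 1 (E x) x hx (one_smul _ _)]
    unfold vloc
    rw [jac_smul_one, norm_one, one_pow, mul_one]
    exact div_mul_cancel₀ _ (pow_ne_zero _ (norm_ne_zero_iff.2 (hE.2 x hx)))
  have hld : ContDiffOn ℝ ∞ (ld Q) T := by
    unfold ld
    exact ContDiffOn.log hd2 fun x hx => (hd1 x hx).2.1.ne'
  -- the local form
  have hloc : ∀ (V : Set (Cn n)) (ψ : Cn n → M), Par n ψ V → ∀ z ∈ V,
      ∃ (τ : Cn n → Cn n) (U : Set (Cn n)), IsOpen U ∧ z ∈ U ∧ U ⊆ V ∧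
        DifferentiableOn ℂ τ U ∧ MapsTo τ U T ∧ (∀ y ∈ U, (fderiv ℂ τ y).det ≠ 0) ∧
        ∀ y ∈ U, lpot n w ψ y = (ld Q ∘ τ) y + Real.log (‖(fderiv ℂ τ y).det‖ ^ 2) := by
    intro V ψ hψ z hz
    obtain ⟨τ, U, W, hU, hW, hzU, hxW, hUV, hWT, hτ, -, hm, hτx, hdet, hiff⟩ :=
      (hPAR hD).2.2.1 V T ψ E hψ hE (g (ψ z)) z hz (s (ψ z)) (hsT _) (hgs _)
    have he : ∀ y ∈ U, g (ψ z) • ψ y = E (τ y) := fun y hy => (hiff y hy (τ y) (hm hy)).2 rfl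
    have hmT : MapsTo τ U T := fun y hy => hWT (hm hy)
    refine ⟨τ, U, hU, hzU, hUV, hτ, hmT, hdet, fun y hy => ?_⟩
    have hj := jac_tau hPAR hD hψ hE hU hUV hτ hmT hdet he hy
    have h1 : w (ψ y) * ‖jac n ψ y‖ ^ 2 = (Q (τ y)).det.re * ‖(fderiv ℂ τ y).det‖ ^ 2 := by
      rw [← hinv (g (ψ z)) (ψ y), he y hy, ← hE2 _ (hmT hy), mul_assoc, mul_assoc, ← mul_pow,
        ← mul_pow, ← norm_mul, ← norm_mul, hj]
    show Real.log (w (ψ y) * ‖jac n ψ y‖ ^ 2) = Real.log ((Q (τ y)).det.re) + _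
    rw [h1, Real.log_mul (hd1 _ (hmT hy)).2.1.ne'
      (pow_ne_zero _ (norm_ne_zero_iff.2 (hdet y hy)))]
  refine ⟨w, ⟨hpos, fun V ψ hψ z hz => ?_⟩, hinv, fun x hx => ?_, fun k hk V ψ hψ z hz => ?_⟩
  · obtain ⟨τ, U, hU, hzU, hUV, hτ, hmT, hdet, he⟩ := hloc V ψ hψ z hz
    have hdd := Pool.Agent.Helper10.Abund.differentiableOn_det_fderiv hU hτ
    obtain ⟨s1, -⟩ := hWCH.2 U hU (fun y => (fderiv ℂ τ y).det) hdd hdet
    have s0 : ContDiffOn ℝ ∞ (ld Q ∘ τ) U := hld.comp (holo_contDiffOn_real hU hτ) hmT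
    have h3 : ContDiffAt ℝ ∞ (lpot n w ψ) z := by
      refine ((s0.add s1).contDiffAt (hU.mem_nhds hzU)).congr_of_eventuallyEq ?_
      filter_upwards [hU.mem_nhds hzU] with y hy
      exact he y hy
    exact h3.contDiffWithinAt
  · show Real.log (w (E x) * ‖jac n E x‖ ^ 2) = Real.log (Q x).det.re
    rw [hE2 x hx]
  · obtain ⟨τ, U, hU, hzU, hUV, hτ, hmT, hdet, he⟩ := hloc V ψ hψ z hz
    have hdd := Pool.Agent.Helper10.Abund.differentiableOn_det_fderiv hU hτ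
    obtain ⟨s1, k1⟩ := hWCH.2 U hU (fun y => (fderiv ℂ τ y).det) hdd hdet
    have s0 : ContDiffOn ℝ ∞ (ld Q ∘ τ) U := hld.comp (holo_contDiffOn_real hU hτ) hmT
    have h4 : ∀ e, lev (lpot n w ψ) z e = lev (ld Q) (τ z) (fderiv ℂ τ z e) := by
      intro e
      have h5 : lpot n w ψ =ᶠ[𝓝 z] fun y => (ld Q ∘ τ) y +
          Real.log (‖(fderiv ℂ τ y).det‖ ^ 2) := by
        filter_upwards [hU.mem_nhds hzU] with y hy
        exact he y hy
      rw [Pool.Agent.Helper86.SP.lev_congr h5, Pool.Agent.Helper86.SP.lev_add hU s0 s1 hzU,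
        (k1 z hzU).1, ((hWCH.1 T U hTo hU τ hτ hmT).2 (ld Q) hld z hzU).1 e, add_zero]
    obtain ⟨hnn, S, hS, hker⟩ := hk (τ z) (hmT hzU)
    refine ⟨fun e => ?_, S.comap (fderiv ℂ τ z : Cn n →ₗ[ℂ] Cn n), ?_, fun e => ?_⟩
    · rw [h4]
      exact hnn _
    · have hu : IsUnit (LinearMap.det (fderiv ℂ τ z : Cn n →ₗ[ℂ] Cn n)) :=
        isUnit_iff_ne_zero.2 (hdet z hzU)
      have e1 : S.comap (fderiv ℂ τ z : Cn n →ₗ[ℂ] Cn n) =
          S.comap ((LinearEquiv.ofIsUnitDet (f := (fderiv ℂ τ z : Cn n →ₗ[ℂ] Cn n))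
            (v := Pi.basisFun ℂ (Fin n)) (v' := Pi.basisFun ℂ (Fin n))
            (by rw [← LinearMap.det_toMatrix (Pi.basisFun ℂ (Fin n))] at hu
                exact hu) : Cn n ≃ₗ[ℂ] Cn n) : Cn n →ₗ[ℂ] Cn n) := by
        congr 1
      rw [e1, ← hS]
      rw [Submodule.comap_equiv_eq_map_symm]
      exact LinearEquiv.finrank_map_eq _ _
    · rw [h4, hker]
      rfl

end Pool.Agent.Helper69.HS
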