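import Pool.Agent.Helper95.HS.GoalsA

/-! # Packet HS UPV: the upper bound for `v - φ` -/

open Complex Metric Set Filter Topology MeasureTheory
open scoped ContDiff ComplexConjugate ComplexOrder Manifold Matrix

namespace Pool.Agent.Helper69.HS

open Pool.Agent.Helper95.Lin Pool.Agent.Helper16.Abund Pool.Agent.Helper10.SP
  Pool.Agent.Helper57.HS Pool.Agent.Helper95.HS

universe u

variable {n : ℕ} {T : Set (Cn n)} {G : Type u} [Group G] {R : G → Cn n → Cn n → Prop}

omit [Group G] in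
/-- from every point there is an arrow to a point where `κ` is positive -/
theorem exists_arrow {κ : Cn n → ℝ} (hκ : IsPUE T R κ) {x : Cn n} (hx : x ∈ T) :
    ∃ γ y, R γ x y ∧ 0 < κ y := by
  by_contra h
  push Not at h
  have h1 := hκ.sum x hx
  have h2 : AS R x (fun _ y => κ y) = 0 := by
    classical
    unfold AS
    have h3 : ∀ p : G × Cn n, (∑ᶠ (_ : R p.1 x p.2), κ p.2) = 0 := by
      intro p
      by_cases hp : R p.1 x p.2
      · rw [finsum_eq_if, if_pos hp]
        exact le_antisymm (h p.1 p.2 hp) (hκ.nonneg _)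
      · rw [finsum_eq_if, if_neg hp]
    rw [finsum_congr h3, finsum_zero]
  rw [h2] at h1
  exact zero_ne_one h1

omit [Group G] in
/-- integrability -/
theorem integrableOn_mul (hT : IsOpen T) {κ f : Cn n → ℝ} (hκ : IsPUE T R κ)
    (hf : ContinuousOn f T) : IntegrableOn (fun x => κ x * f x) T := by
  have hk : IsCompact (tsupport κ) := hκ.test.2.1
  have h1 : IntegrableOn (fun x => κ x * f x) (tsupport κ) := by
    refine ContinuousOn.integrableOn_compact hk ?_
    exact hκ.test.1.continuous.continuousOn.mul (hf.mono hκ.test.2.2)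
  refine IntegrableOn.of_forall_sdiff_eq_zero h1 hT.measurableSet fun x hx => ?_
  have : κ x = 0 := image_eq_zero_of_notMem_tsupport hx.2
  rw [this, zero_mul]

omit [Group G] in
/-- positivity -/
theorem integral_pos (hT : IsOpen T) {κ f : Cn n → ℝ} (hκ : IsPUE T R κ)
    (hf : ContinuousOn f T) (hf0 : ∀ x ∈ T, 0 < f x) {A : Set (Cn n)} (hA : IsOpen A)
    (hAT : A ⊆ T) {y : Cn n} (hy : y ∈ A) (hκy : 0 < κ y) :
    0 < ∫ x in A, κ x * f x := by
  rw [setIntegral_pos_iff_support_of_nonneg_ae]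
  · have hO : IsOpen (A ∩ κ ⁻¹' Ioi 0) := hA.inter (isOpen_Ioi.preimage hκ.test.1.continuous)
    refine (hO.measure_pos volume ⟨y, hy, hκy⟩).trans_le (measure_mono ?_)
    rintro x ⟨hx, hx'⟩
    exact ⟨(mul_pos hx' (hf0 x (hAT hx))).ne', hx⟩
  · refine (ae_restrict_iff' hA.measurableSet).2 (Eventually.of_forall fun x hx => ?_)
    exact mul_nonneg (hκ.nonneg x) (hf0 x (hAT hx)).le
  · exact (integrableOn_mul hT hκ hf).mono_set hAT

/-- UPV. -/
theorem upv (hHOLS : S_HOLS.{u}) (hDEGI : S_DEGI) (hKETP : S_KETP.{u}) : S_UPV.{u} := by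
  intro n hn T G _ R H hK κ hκ a K
  obtain ⟨C, hC⟩ := hHOLS hn T R H hK κ hκ a K
  have hn' : (0 : ℝ) < n := by exact_mod_cast hn
  obtain ⟨S, -, hS⟩ := hDEGI C (1 / (2 * (n : ℝ))) (by positivity)
  refine ⟨S, fun χ φ v hχ hφ hv hd x hx => ?_⟩
  by_contra hlt
  push Not at hlt
  have hT : IsOpen T := hK.et.isOpen
  have hchf : CHF (pert χ φ) T :=
    ((hKETP T R hK.et).1 χ φ hχ.chf hχ.inv hφ.pot.inv).1
  have hcont : ContinuousOn (fun x => (pert χ φ x).det.re) T := by
    have h1 : ContinuousOn (pert χ φ) T :=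
      continuousOn_pi.2 fun i => continuousOn_pi.2 fun j => (hchf.smooth i j).continuousOn
    exact Complex.continuous_re.comp_continuousOn
      ((continuous_id.matrix_det).comp_continuousOn h1)
  have hpos : ∀ x ∈ T, 0 < (pert χ φ x).det.re := fun x hx =>
    (Complex.lt_def.1 (hφ.pot.pos x hx).det_pos).1
  have hint := integrableOn_mul hT hκ hcont
  have hnn : ∀ A ⊆ T, 0 ≤ᵐ[volume.restrict T] fun x => κ x * (pert χ φ x).det.re := by
    intro A _
    refine (ae_restrict_iff' hT.measurableSet).2 (Eventually.of_forall fun x hx => ?_)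
    exact mul_nonneg (hκ.nonneg x) (hpos x hx).le
  have hmono : ∀ A B : Set (Cn n), A ⊆ B → B ⊆ T →
      ∫ x in A, κ x * (pert χ φ x).det.re ≤ ∫ x in B, κ x * (pert χ φ x).det.re := by
    intro A B hAB hBT
    refine setIntegral_mono_set (hint.mono_set hBT) ?_ (ae_of_all _ hAB)
    exact ae_restrict_of_ae_restrict_of_subset hBT (hnn B hBT)
  have hnonneg : ∀ A ⊆ T, 0 ≤ ∫ x in A, κ x * (pert χ φ x).det.re := by
    intro A hA
    refine integral_nonneg_of_ae ?_
    exact ae_restrict_of_ae_restrict_of_subset hA (hnn A hA)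
  have hVpos : 0 < vol T κ (pert χ φ) := by
    obtain ⟨γ, y, hy, hy'⟩ := exists_arrow hκ hx
    exact integral_pos hT hκ hcont hpos hT subset_rfl (hK.et.mem _ _ _ hy).2 hy'
  have hm : (∫ x in T ∩ {x | S < v x - φ x}, κ x * (pert χ φ x).det.re) /
      vol T κ (pert χ φ) = 0 := by
    refine hS (fun s => (∫ x in T ∩ {x | s < v x - φ x}, κ x * (pert χ φ x).det.re) /
      vol T κ (pert χ φ)) (fun s => ⟨?_, ?_⟩) ?_ ?_
    · exact div_nonneg (hnonneg _ inter_subset_left) hVpos.le
    · rw [div_le_one hVpos]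
      exact hmono _ _ inter_subset_left subset_rfl
    · intro s s' hs
      refine div_le_div_of_nonneg_right ?_ hVpos.le
      refine hmono _ _ ?_ inter_subset_left
      rintro x ⟨hx, hx'⟩
      exact ⟨hx, lt_of_le_of_lt hs hx'⟩
    · intro s r hs hr
      exact hC χ φ v hχ hφ hv hd s r hs hr
  have hA : IsOpen (T ∩ {x | S < v x - φ x}) := by
    have h1 : ContinuousOn (fun x => v x - φ x) T :=
      hv.pot.inv.1.continuousOn.sub hφ.pot.inv.1.continuousOn
    exact h1.isOpen_inter_preimage hT isOpen_Ioi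
  obtain ⟨γ, y, hy, hy'⟩ := exists_arrow hκ hx
  have hyA : y ∈ T ∩ {x | S < v x - φ x} := by
    refine ⟨(hK.et.mem _ _ _ hy).2, ?_⟩
    change S < v y - φ y
    rw [hv.pot.inv.2 γ x y hy, hφ.pot.inv.2 γ x y hy]
    exact hlt
  have h2 := integral_pos hT hκ hcont hpos hA inter_subset_left hyA hy'
  have h3 := div_pos h2 hVpos
  exact h3.ne' hm

end Pool.Agent.Helper69.HS
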