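import Pool.Agent.Helper95.HS.GoalsA

/-! # Packet HS CHN: the chain rule for the Levi matrix -/

open Complex Metric Set Filter Topology MeasureTheory
open scoped ContDiff ComplexConjugate ComplexOrder Manifold Matrix

namespace Pool.Agent.Helper69.HS

open Pool.Agent.Helper95.Lin Pool.Agent.Helper16.Abund Pool.Agent.Helper10.SP
  Pool.Agent.Helper57.HS Pool.Agent.Helper95.HS

variable {n : ℕ} {W : Set (Cn n)}

/-- the chain rule for `cd` and `cdb` -/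
theorem chain1 (hW : IsOpen W) {w : Cn n → ℝ} {F : ℝ → ℝ} {J : Set ℝ}
    (hw : ContDiffOn ℝ ∞ w W) (hJ : IsOpen J) (hF : ContDiffOn ℝ ∞ F J) (hm : MapsTo w W J)
    {x : Cn n} (hx : x ∈ W) (j : Fin n) :
    cd j (fun y => ((F (w y) : ℝ) : ℂ)) x =
      ((deriv F (w x) : ℝ) : ℂ) * cd j (fun y => ((w y : ℝ) : ℂ)) x ∧
    cdb j (fun y => ((F (w y) : ℝ) : ℂ)) x =
      ((deriv F (w x) : ℝ) : ℂ) * cdb j (fun y => ((w y : ℝ) : ℂ)) x := by
  have hd : HasFDerivAt w (fderiv ℝ w x) x :=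
    ((hw.contDiffAt (hW.mem_nhds hx)).differentiableAt (by simp)).hasFDerivAt
  have hF' : HasDerivAt F (deriv F (w x)) (w x) :=
    ((hF.contDiffAt (hJ.mem_nhds (hm hx))).differentiableAt (by simp)).hasDerivAt
  have h1 : HasFDerivAt (fun y => F (w y)) (deriv F (w x) • fderiv ℝ w x) x :=
    hF'.comp_hasFDerivAt x hd
  have h2 : HasFDerivAt (fun y => ((F (w y) : ℝ) : ℂ))
      (Complex.ofRealCLM.comp (deriv F (w x) • fderiv ℝ w x)) x :=
    Complex.ofRealCLM.hasFDerivAt.comp x h1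
  have h3 : HasFDerivAt (fun y => ((w y : ℝ) : ℂ)) (Complex.ofRealCLM.comp (fderiv ℝ w x)) x :=
    Complex.ofRealCLM.hasFDerivAt.comp x hd
  have h4 : ∀ e, fderiv ℝ (fun y => ((F (w y) : ℝ) : ℂ)) x e =
      ((deriv F (w x) : ℝ) : ℂ) * fderiv ℝ (fun y => ((w y : ℝ) : ℂ)) x e := by
    intro e
    rw [h2.fderiv, h3.fderiv]
    simp
  constructor
  · simp only [cd, h4]; ring
  · simp only [cdb, h4]; ring

theorem cd_congr' (hW : IsOpen W) {f g : Cn n → ℂ} (h : ∀ y ∈ W, f y = g y) (j : Fin n)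
    {x : Cn n} (hx : x ∈ W) : cd j f x = cd j g x := by
  have h1 : f =ᶠ[𝓝 x] g := by
    filter_upwards [hW.mem_nhds hx] with y hy using h y hy
  unfold cd
  rw [h1.fderiv_eq]

/-- CHN. -/
theorem chn (hWIRT : S_WIRT) : S_CHN := by
  intro n W hW w F J hw hJ hF hm
  refine ⟨hF.comp hw hm, fun x hx => ⟨fun j => (chain1 hW hw hJ hF hm hx j).1, fun j k => ?_⟩⟩
  have hdF : ContDiffOn ℝ ∞ (deriv F) J := by
    have := (contDiffOn_infty_iff_deriv_of_isOpen hJ).1 hF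
    exact this.2
  have hwc : ContDiffOn ℝ ∞ (fun y => ((w y : ℝ) : ℂ)) W :=
    Complex.ofRealCLM.contDiff.comp_contDiffOn hw
  have hfc : ContDiffOn ℝ ∞ (fun y => ((deriv F (w y) : ℝ) : ℂ)) W :=
    Complex.ofRealCLM.contDiff.comp_contDiffOn (hdF.comp hw hm)
  have hcdb : ContDiffOn ℝ ∞ (cdb k fun y => ((w y : ℝ) : ℂ)) W :=
    ((hWIRT W hW _ _ hwc hwc).1 k).2
  have e1 : LM (fun y => F (w y)) x j k =
      cd j (fun y => ((deriv F (w y) : ℝ) : ℂ) * cdb k (fun y => ((w y : ℝ) : ℂ)) y) x := by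
    change cd j (cdb k fun y => ((F (w y) : ℝ) : ℂ)) x = _
    exact cd_congr' hW (fun y hy => (chain1 hW hw hJ hF hm hy k).2) j hx
  have e2 := ((hWIRT W hW _ _ hfc hcdb).2.2.1 j x hx).1
  have e3 := (chain1 hW hw hJ hdF hm hx j).1
  have e4 : cdb k (fun y => ((w y : ℝ) : ℂ)) x = conj (cd k (fun y => ((w y : ℝ) : ℂ)) x) := by
    have h1 := ((hWIRT W hW _ _ hwc hwc).2.2.2.1 k x hx).2
    rw [← h1]
    congr 1
    funext y
    exact (Complex.conj_ofReal _).symm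
  rw [e1, e2, e3, e4]
  change _ = ((deriv F (w x) : ℝ) : ℂ) * cd j (cdb k fun y => ((w y : ℝ) : ℂ)) x + _
  ring

end Pool.Agent.Helper69.HS
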